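import Pool.Agent.W79.ST.Basic

/-!
Project ST: consequences of the maximality of the greedy choice.
-/

set_option autoImplicit false

namespace Pool.Agent.W621.ST

open Pool.Agent.W79.ST
open scoped Classical

theorem logb_le {n k : ℕ} (h : n ≤ 2 ^ k) : Real.logb 2 (n : ℝ) ≤ k := by
  rcases Nat.eq_zero_or_pos n with h0 | h0
  · subst h0; simp
  · rw [Real.logb_le_iff_le_rpow (by norm_num) (by exact_mod_cast h0), Real.rpow_natCast]
    exact_mod_cast h

theorem T_lt (j : ℕ) : j < T j := by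
  unfold T
  calc j < 2 ^ j := Nat.lt_two_pow_self
    _ ≤ 2 ^ (2 ^ (j + 4)) := Nat.pow_le_pow_right (by norm_num)
        ((Nat.le_add_right j 4).trans Nat.lt_two_pow_self.le)

/-- the finset of a set -/
noncomputable def fs {V : Type} [Fintype V] (Q : Set V) : Finset V := Q.toFinite.toFinset

theorem mem_fs {V : Type} [Fintype V] {Q : Set V} {x : V} : x ∈ fs Q ↔ x ∈ Q := by
  unfold fs
  exact Set.Finite.mem_toFinset _

theorem ncard_filter {V : Type} [Fintype V] (Q : Set V) : (fs Q).card = Q.ncard := by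
  unfold fs
  exact (Set.ncard_eq_toFinset_card _ _).symm

theorem be_pos (j : ℕ) : 0 < be j := by unfold be; positivity

theorem logb_T3 {n j : ℕ} (h : n ≤ T j ^ 3) : Real.logb 2 (n : ℝ) ≤ 3 * 2 ^ (j + 4) := by
  have h1 : n ≤ 2 ^ (3 * 2 ^ (j + 4)) := by
    refine h.trans (le_of_eq ?_)
    unfold T
    rw [← pow_mul, mul_comm]
  have h2 := logb_le h1
  push_cast at h2
  exact h2

section

variable {V : Type} [Fintype V] (D : Subgroup (Equiv.Perm V))

theorem drop_nn (hpsi : S_PSI) (v x : V) :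
    0 ≤ psi (Fintype.card V) (os D x) - psi (Fintype.card V) (os (stb D v) x) :=
  sub_nonneg.2 (hpsi.1 _ (os_mono (stb_le D v) x))

theorem drop_sum (hpsi : S_PSI) (hD : Term D) (v : V) (hv : 2 ≤ os D v) (Q : Set V) :
    ∑ x ∈ fs Q, (psi (Fintype.card V) (os D x) - psi (Fintype.card V) (os (stb D v) x))
      < Real.logb 2 (os D v) := by
  refine lt_of_le_of_lt ?_ (hD v hv)
  unfold Psi
  rw [← Finset.sum_sub_distrib]
  exact Finset.sum_le_sum_of_subset_of_nonneg (Finset.subset_univ _)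
    (fun x _ _ => drop_nn D hpsi v x)

theorem tt0 (hpsi : S_PSI) (hD : Term D) (v : V) (hv : 2 ≤ os D v) : T 0 < os D v := by
  by_contra hc
  push Not at hc
  have h1 := drop_sum D hpsi hD v hv {v}
  have h0 : fs ({v} : Set V) = {v} := by
    ext x
    rw [mem_fs]
    simp
  rw [h0, Finset.sum_singleton, os_stb_self] at h1
  have h2 := hpsi.2.2.2.1 (Fintype.card V) (os D v) 1 le_rfl (by omega)
  have h3 : Real.logb 2 (os D v : ℝ) ≤ (16 : ℕ) := logb_le (by simpa [T] using hc)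
  push_cast at h3
  linarith

theorem tt1 (hpsi : S_PSI) (hD : Term D) (j : ℕ) (v : V) (R : Set V) (hv : 2 ≤ os D v)
    (hj : os D v ≤ T j ^ 3) (hinv : ∀ σ ∈ stb D v, ∀ x ∈ R, σ x ∈ R) (hR : R.ncard ≤ T j)
    (hT : ∀ x ∈ R, T j < os D x) : R.ncard < be j := by
  rcases R.eq_empty_or_nonempty with rfl | ⟨x0, hx0⟩
  · rw [Set.ncard_empty]; exact be_pos j
  have hjN : j < Fintype.card V := (T_lt j).trans ((hT x0 hx0).trans_le (os_le_card D x0))
  have h1 : ∀ x ∈ R, os (stb D v) x ≤ T j := fun x hx => (os_le_ncard hinv hx).trans hR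
  have h2 : ∀ x ∈ R, (1 / 2 : ℝ) ^ j ≤
      psi (Fintype.card V) (os D x) - psi (Fintype.card V) (os (stb D v) x) :=
    fun x hx => hpsi.2.2.2.2.1 _ j _ _ hjN (h1 x hx) (hT x hx)
  have h3 : (R.ncard : ℝ) * (1 / 2) ^ j < 3 * 2 ^ (j + 4) := by
    calc (R.ncard : ℝ) * (1 / 2) ^ j = ∑ x ∈ fs R, (1 / 2 : ℝ) ^ j := by
          rw [Finset.sum_const, nsmul_eq_mul, ncard_filter]
      _ ≤ ∑ x ∈ fs R,
            (psi (Fintype.card V) (os D x) - psi (Fintype.card V) (os (stb D v) x)) :=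
          Finset.sum_le_sum (fun x hx => h2 x (mem_fs.1 hx))
      _ < Real.logb 2 (os D v) := drop_sum D hpsi hD v hv R
      _ ≤ 3 * 2 ^ (j + 4) := logb_T3 hj
  have h4 : (R.ncard : ℝ) < be j := by
    have h5 : (R.ncard : ℝ) = ((R.ncard : ℝ) * (1 / 2) ^ j) * 2 ^ j := by
      rw [mul_assoc, ← mul_pow]; norm_num
    rw [h5]
    calc (R.ncard : ℝ) * (1 / 2) ^ j * 2 ^ j < 3 * 2 ^ (j + 4) * 2 ^ j :=
          mul_lt_mul_of_pos_right h3 (by positivity)
      _ ≤ be j := by
          unfold be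
          push_cast
          have : (2 : ℝ) ^ (2 * j + 6) = 4 * 2 ^ (j + 4) * 2 ^ j := by ring
          rw [this]
          have : (0 : ℝ) < 2 ^ (j + 4) * 2 ^ j := by positivity
          nlinarith
  exact_mod_cast h4

theorem tt3 (hpsi : S_PSI) (hD : Term D) (j : ℕ) (v x : V) (P : Set V) (hv : 2 ≤ os D v)
    (hj : os D v ≤ T j ^ 3) (hx : T j < os D x) (hP : P ⊆ orb D x)
    (hinv : ∀ σ ∈ stb D v, ∀ y ∈ P, σ y ∈ P) :
    P.ncard < be j ∨ (orb D x \ P).ncard < be j := by
  have hjN : j < Fintype.card V := (T_lt j).trans (hx.trans_le (os_le_card D x))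
  have hos : ∀ y ∈ orb D x, os D y = os D x := fun y hy => os_eq_of_mem hy
  have hBinv : ∀ σ ∈ stb D v, ∀ y ∈ orb D x, σ y ∈ orb D x := by
    intro σ hσ y hy
    rw [← orb_eq_of_mem hy]
    exact mem_orb_apply (stb_le D v hσ) y
  have hQinv : ∀ σ ∈ stb D v, ∀ y ∈ orb D x \ P, σ y ∈ orb D x \ P := by
    intro σ hσ y hy
    refine ⟨hBinv σ hσ y hy.1, fun h => hy.2 ?_⟩
    have h1 := hinv σ⁻¹ ((stb D v).inv_mem hσ) _ h
    have h2 : σ⁻¹ (σ y) = y := σ.symm_apply_apply y
    rwa [h2] at h1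
  by_cases h1 : P.ncard ≤ T j
  · left
    exact tt1 D hpsi hD j v P hv hj hinv h1 (fun y hy => by rw [hos y (hP hy)]; exact hx)
  by_cases h2 : (orb D x \ P).ncard ≤ T j
  · right
    exact tt1 D hpsi hD j v _ hv hj hQinv h2 (fun y hy => by rw [hos y hy.1]; exact hx)
  exfalso
  push Not at h1 h2
  have hsum : os D x = P.ncard + (orb D x \ P).ncard := by
    have := Set.ncard_sdiff_add_ncard_of_subset hP (Set.toFinite _)
    unfold os
    omega
  have h6 := hpsi.2.2.2.2.2 (Fintype.card V) j P.ncard (orb D x \ P).ncard hjN h1.le h2.le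
  have h7 := drop_sum D hpsi hD v hv (orb D x)
  have h8 : fs (orb D x) = fs P ∪ fs (orb D x \ P) := by
    ext y
    have := @hP y
    simp only [mem_fs, Finset.mem_union, Set.mem_sdiff]
    tauto
  have h9 : Disjoint (fs P) (fs (orb D x \ P)) := by
    rw [Finset.disjoint_left]
    intro y h h'
    exact (mem_fs.1 h').2 (mem_fs.1 h)
  rw [h8, Finset.sum_union h9] at h7
  have h10 : ∀ (R : Set V), R ⊆ orb D x → (∀ σ ∈ stb D v, ∀ y ∈ R, σ y ∈ R) →
      (R.ncard : ℝ) * (psi (Fintype.card V) (os D x) - psi (Fintype.card V) R.ncard) ≤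
      ∑ y ∈ fs R,
        (psi (Fintype.card V) (os D y) - psi (Fintype.card V) (os (stb D v) y)) := by
    intro R hR hRi
    have h11 : (R.ncard : ℝ) * (psi (Fintype.card V) (os D x) - psi (Fintype.card V) R.ncard) =
        ∑ y ∈ fs R, (psi (Fintype.card V) (os D x) - psi (Fintype.card V) R.ncard) := by
      rw [Finset.sum_const, nsmul_eq_mul, ncard_filter]
    rw [h11]
    refine Finset.sum_le_sum (fun y hy => ?_)
    have hy := (mem_fs.1 hy)
    rw [hos y (hR hy)]
    exact sub_le_sub_left (hpsi.1 _ (os_le_ncard hRi hy)) _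
  have h12 := h10 P hP hinv
  have h13 := h10 _ Set.sdiff_subset hQinv
  have h14 := logb_T3 hj
  rw [← hsum] at h6
  have h15 : (P.ncard : ℝ) + (orb D x \ P).ncard = os D x := by
    rw [hsum]; push_cast; ring
  rw [h15] at h6
  have h16 : (os D x : ℝ) * psi (Fintype.card V) (os D x) =
      P.ncard * psi (Fintype.card V) (os D x) +
      (orb D x \ P).ncard * psi (Fintype.card V) (os D x) := by
    rw [← add_mul, h15]
  rw [h16] at h6
  linarith

end

theorem main : S_PSI → S_TERM := by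
  intro hpsi V _ D hD
  exact ⟨fun v hv => tt0 D hpsi hD v hv,
    fun j v R hv hj hinv hR hT => tt1 D hpsi hD j v R hv hj hinv hR hT,
    fun j v x P hv hj hx hP hinv => tt3 D hpsi hD j v x P hv hj hx hP hinv⟩

end Pool.Agent.W621.ST
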